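import Mathlib
import Pool.Agent.R572.PD.Linear
import Pool.Agent.R572.PD.Bdd
import Pool.Agent.R572.PD.LogLog
import Pool.Agent.R572.PD.UpperLin
import Pool.Agent.R572.PD.UpperLL
import Pool.Agent.R572.PD.Assembly

/-!
# Tight bounds on strong and middle pushdown space for nonregular languages
-/

namespace Pool.Agent.Results.MP_300f36_lc.TightSpace

open Agent.R572.PD

/-- The eight tight bounds: strong mode, `n` for all four classes; middle mode, `n` for the
nondeterministic classes and `log log n` for the alternating classes. -/
theorem result :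
    TightBound .oneWayNondet .strong (fun n => (n : ℝ)) ∧
    TightBound .realtimeNondet .strong (fun n => (n : ℝ)) ∧
    TightBound .oneWayAlt .strong (fun n => (n : ℝ)) ∧
    TightBound .realtimeAlt .strong (fun n => (n : ℝ)) ∧
    TightBound .oneWayNondet .middle (fun n => (n : ℝ)) ∧
    TightBound .realtimeNondet .middle (fun n => (n : ℝ)) ∧
    TightBound .oneWayAlt .middle (fun n => Real.log (Real.log (n : ℝ))) ∧
    TightBound .realtimeAlt .middle (fun n => Real.log (Real.log (n : ℝ))) := by
  obtain ⟨h1, h2, h3, h4, h5⟩ := stmAssembly stmLinear stmBdd (stmLogLog_of_bdd stmBdd)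
    stmUpperLin stmUpperLL
  exact ⟨h1 _, h1 _, h1 _, h1 _, h2, h3, h4, h5⟩

end Pool.Agent.Results.MP_300f36_lc.TightSpace
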